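import Mathlib

/-! PaperF.md section 8: an infinite abelian torsion group has finite `p`-subgroups of arbitrarily
large order which are cyclic or of exponent `p`.  (MP_acafa7_al, helper85) -/

namespace MSGF

open Classical

/-- the elements of order dividing `m` of a commutative subgroup -/
def tor {Γ : Type*} [Group Γ] (A : Subgroup Γ) (hA : ∀ x ∈ A, ∀ y ∈ A, x * y = y * x) (m : ℕ) :
    Subgroup Γ where
  carrier := {x | x ∈ A ∧ x ^ m = 1}
  mul_mem' := by
    rintro x y ⟨hx, hx1⟩ ⟨hy, hy1⟩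
    exact ⟨A.mul_mem hx hy, by rw [(show Commute x y from hA x hx y hy).mul_pow, hx1, hy1, one_mul]⟩
  one_mem' := ⟨A.one_mem, one_pow _⟩
  inv_mem' := by
    rintro x ⟨hx, hx1⟩
    exact ⟨A.inv_mem hx, by rw [inv_pow, hx1, inv_one]⟩

/-- a finitely generated commutative torsion subgroup is finite -/
theorem closure_finite {Γ : Type*} [Group Γ] (S : Set Γ) (hS : S.Finite)
    (hc : ∀ x ∈ Subgroup.closure S, ∀ y ∈ Subgroup.closure S, x * y = y * x)
    (ht : ∀ x ∈ Subgroup.closure S, ∃ n : ℕ, 0 < n ∧ x ^ n = 1) :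
    ((Subgroup.closure S : Subgroup Γ) : Set Γ).Finite := by
  let _ : CommGroup (Subgroup.closure S) :=
    { (inferInstance : Group (Subgroup.closure S)) with
      mul_comm := fun x y => Subtype.ext (hc x x.2 y y.2) }
  have hfg : Group.FG (Subgroup.closure S) := by
    have : Finite S := hS
    exact Group.closure_finite_fg S
  have : Finite (Subgroup.closure S) := by
    apply CommGroup.finite_of_fg_isMulTorsion
    intro x
    obtain ⟨n, hn, hx⟩ := ht x x.2
    rw [isOfFinOrder_iff_pow_eq_one]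
    exact ⟨n, hn, Subtype.ext (by simpa using hx)⟩
  exact Set.toFinite _

/-- if all `A[p]` are finite, all `A[m]` are -/
theorem tor_finite {Γ : Type*} [Group Γ] (A : Subgroup Γ)
    (hA : ∀ x ∈ A, ∀ y ∈ A, x * y = y * x)
    (hp : ∀ p : ℕ, p.Prime → ((tor A hA p : Subgroup Γ) : Set Γ).Finite) (m : ℕ) (hm : m ≠ 0) :
    ((tor A hA m : Subgroup Γ) : Set Γ).Finite := by
  induction m using Nat.recOnMul with
  | zero => exact absurd rfl hm
  | one =>
    apply Set.Finite.subset (Set.finite_singleton (1 : Γ))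
    rintro x ⟨-, hx⟩
    rw [pow_one] at hx
    exact hx
  | prime p hp' => exact hp p hp'
  | mul a b iha ihb =>
    have ha : a ≠ 0 := fun h => hm (by rw [h, zero_mul])
    have hb : b ≠ 0 := fun h => hm (by rw [h, mul_zero])
    have h1 := iha ha
    have h2 := ihb hb
    -- x ↦ x ^ b maps A[ab] to A[a], fibres are cosets of A[b]
    refine Set.Finite.of_finite_fibers (fun x : Γ => x ^ b) ?_ ?_
    · apply Set.Finite.subset h1
      rintro y ⟨x, ⟨hx, hx1⟩, rfl⟩
      exact ⟨A.pow_mem hx _, by rw [← pow_mul, mul_comm, hx1]⟩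
    · rintro y ⟨x₀, ⟨hx₀, hx₀1⟩, rfl⟩
      apply Set.Finite.subset (h2.image (fun z => x₀ * z))
      rintro x ⟨⟨hx, hx1⟩, hx2⟩
      refine ⟨x₀⁻¹ * x, ⟨A.mul_mem (A.inv_mem hx₀) hx, ?_⟩, by group⟩
      have hcm : Commute x₀⁻¹ x := hA _ (A.inv_mem hx₀) _ hx
      have hx3 : x ^ b = x₀ ^ b := hx2
      rw [hcm.mul_pow, hx3, inv_pow, inv_mul_cancel]

/-- section 8: large finite subgroups -/
theorem exists_large {Γ : Type*} [Group Γ] (A : Subgroup Γ)
    (hA : ∀ x ∈ A, ∀ y ∈ A, x * y = y * x) (ht : ∀ x ∈ A, ∃ n : ℕ, 0 < n ∧ x ^ n = 1)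
    (hinf : ¬ (A : Set Γ).Finite) (M : ℕ) :
    ∃ (p : ℕ) (B : Subgroup Γ), p.Prime ∧ B ≤ A ∧ Finite B ∧ M < Nat.card B ∧ IsPGroup p B ∧
      (IsCyclic B ∨ ∀ b ∈ B, b ^ p = 1) := by
  by_cases hbig : ∃ x ∈ A, ∃ p k : ℕ, p.Prime ∧ p ^ k ∣ orderOf x ∧ M < p ^ k
  · obtain ⟨x, hx, p, k, hp, hd, hM⟩ := hbig
    have hfo : IsOfFinOrder x := by
      rw [isOfFinOrder_iff_pow_eq_one]
      exact ht x hx
    have hpos : 0 < orderOf x := hfo.orderOf_pos
    set y := x ^ (orderOf x / p ^ k) with hy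
    have hoy : orderOf y = p ^ k := by
      rw [hy]
      have h1 : orderOf x / p ^ k ≠ 0 :=
        (Nat.div_pos (Nat.le_of_dvd hpos hd) (pow_pos hp.pos _)).ne'
      have h2 : orderOf x / p ^ k ∣ orderOf x := Nat.div_dvd_of_dvd hd
      rw [orderOf_pow_of_dvd h1 h2]
      exact Nat.div_div_self hd hpos.ne'
    have hcard : Nat.card (Subgroup.zpowers y) = p ^ k := by
      rw [Nat.card_zpowers, hoy]
    refine ⟨p, Subgroup.zpowers y, hp, ?_, ?_, ?_, ?_, Or.inl inferInstance⟩
    · rw [Subgroup.zpowers_le]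
      exact A.pow_mem hx _
    · apply Nat.finite_of_card_ne_zero
      rw [hcard]
      exact (pow_pos hp.pos _).ne'
    · rw [hcard]
      exact hM
    · exact IsPGroup.of_card hcard
  · push Not at hbig
    -- bounded exponent
    have hexp : ∀ x ∈ A, x ^ (M.factorial) = 1 := by
      intro x hx
      have hfo : IsOfFinOrder x := by
        rw [isOfFinOrder_iff_pow_eq_one]
        exact ht x hx
      have hpos : 0 < orderOf x := hfo.orderOf_pos
      apply orderOf_dvd_iff_pow_eq_one.mp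
      rw [Nat.dvd_iff_prime_pow_dvd_dvd]
      intro p k hp hd
      apply Nat.dvd_factorial (pow_pos hp.pos _)
      exact hbig x hx p k hp hd
    have hex : ∃ p : ℕ, p.Prime ∧ ¬ ((tor A hA p : Subgroup Γ) : Set Γ).Finite := by
      by_contra hcon
      push Not at hcon
      apply hinf
      apply Set.Finite.subset (tor_finite A hA hcon _ (Nat.factorial_ne_zero M))
      intro x hx
      exact ⟨hx, hexp x hx⟩
    obtain ⟨p, hp, hpinf⟩ := hex
    obtain ⟨S, hSsub, hScard⟩ := Set.Infinite.exists_subset_card_eq hpinf (M + 1)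
    have hcl : Subgroup.closure (S : Set Γ) ≤ tor A hA p := by
      rw [Subgroup.closure_le]
      exact hSsub
    have hfin := closure_finite (S : Set Γ) S.finite_toSet
      (fun x hx y hy => hA x (hcl hx).1 y (hcl hy).1)
      (fun x hx => ⟨p, hp.pos, (hcl hx).2⟩)
    have hfin' : Finite (Subgroup.closure (S : Set Γ)) := hfin
    refine ⟨p, Subgroup.closure (S : Set Γ), hp, fun x hx => (hcl hx).1, hfin, ?_, ?_, Or.inr
      fun b hb => (hcl hb).2⟩
    · have h1 : Nat.card (S : Set Γ) ≤ Nat.card (Subgroup.closure (S : Set Γ)) := by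
        apply Nat.card_le_card_of_injective
          (fun x : (S : Set Γ) => (⟨x.1, Subgroup.subset_closure x.2⟩ :
            Subgroup.closure (S : Set Γ)))
        intro x y h
        have h' := congrArg Subtype.val h
        exact Subtype.ext h'
      have h2 : Nat.card (S : Set Γ) = M + 1 := by
        rw [← hScard]
        simp
      omega
    · intro x
      refine ⟨1, Subtype.ext ?_⟩
      rw [pow_one]
      exact (hcl x.2).2

end MSGF
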