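import Pool.Agent.Lib.MP_acafa7_al.F.IfaceC
import Pool.Agent.Lib.MP_acafa7_al.F.H85.AbTors

/-! TORB.  (MP_acafa7_al, helper85) -/

namespace MSG.F85

open Classical

theorem torb_st : TorBStatement := by
  intro Γ _ A hA ht hinf
  have ht' : ∀ x ∈ A, ∃ n : ℕ, 0 < n ∧ x ^ n = 1 := by
    intro x hx
    have := ht x hx
    rwa [isOfFinOrder_iff_pow_eq_one] at this
  constructor
  · intro M
    obtain ⟨p, B, h1, h2, h3, h4, h5, h6⟩ := MSGF.exists_large A hA ht' hinf M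
    exact ⟨p, ⟨h1⟩, B, h2, h3, h5, h6, h4⟩
  · intro M
    obtain ⟨p, B, h1, h2, h3, h4, h5, h6⟩ := MSGF.exists_large A hA ht' hinf M
    exact ⟨B, h2, h3, h4⟩

end MSG.F85
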