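import Mathlib

/-! PaperF.md 9.1: in a group whose abelian torsion subgroups are finite, the solvable torsion
subgroups are finite.  (MP_acafa7_al, helper85) -/

namespace MSGF

open Classical

/-- a subgroup generated by pairwise commuting elements is commutative -/
theorem closure_comm {S : Type*} [Group S] (T : Set S) (h : ∀ x ∈ T, ∀ y ∈ T, x * y = y * x) :
    ∀ x ∈ Subgroup.closure T, ∀ y ∈ Subgroup.closure T, x * y = y * x := by
  have h1 : Subgroup.closure T ≤ Subgroup.centralizer T := by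
    rw [Subgroup.closure_le]
    intro x hx
    rw [SetLike.mem_coe, Subgroup.mem_centralizer_iff]
    intro y hy
    exact h y hy x hx
  have h2 : Subgroup.closure T ≤ Subgroup.centralizer (Subgroup.closure T : Set S) := by
    rw [Subgroup.closure_le]
    intro x hx
    rw [SetLike.mem_coe, Subgroup.mem_centralizer_iff]
    intro y hy
    have := h1 hy
    rw [Subgroup.mem_centralizer_iff] at this
    exact (this x hx).symm
  intro x hx y hy
  have := h2 hy
  rw [Subgroup.mem_centralizer_iff] at this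
  exact this x hx

/-- a subgroup with finite commutator subgroup, all of whose commutative subgroups are finite,
is finite -/
theorem finite_of_commutator_finite {S : Type*} [Group S] (K L : Subgroup S)
    (hL : (L : Set S).Finite) (hKL : ∀ x ∈ K, ∀ y ∈ K, x * y * x⁻¹ * y⁻¹ ∈ L)
    (hab : ∀ A : Subgroup S, A ≤ K → (∀ x ∈ A, ∀ y ∈ A, x * y = y * x) → (A : Set S).Finite) :
    (K : Set S).Finite := by
  by_contra hinf
  -- maximal commutative subgroup
  obtain ⟨A, -, hA⟩ := zorn_le_nonempty₀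
    {A : Subgroup S | A ≤ K ∧ ∀ x ∈ A, ∀ y ∈ A, x * y = y * x} (by
      intro c hc hchain A₀ hA₀
      have hdir : DirectedOn (· ≤ ·) c := hchain.directedOn
      refine ⟨sSup c, ⟨?_, ?_⟩, fun z hz => le_sSup hz⟩
      · exact sSup_le fun z hz => (hc hz).1
      · intro x hx y hy
        rw [Subgroup.mem_sSup_of_directedOn ⟨A₀, hA₀⟩ hdir] at hx hy
        obtain ⟨X, hX, hx⟩ := hx
        obtain ⟨Y, hY, hy⟩ := hy
        obtain ⟨Z, hZ, hXZ, hYZ⟩ := hdir X hX Y hY
        exact (hc hZ).2 x (hXZ hx) y (hYZ hy)) ⊥ ⟨bot_le, by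
      intro x hx y hy
      rw [Subgroup.mem_bot] at hx hy
      rw [hx, hy]⟩
  have hAK : A ≤ K := hA.prop.1
  have hAfin := hab A hAK hA.prop.2
  have : Finite A := hAfin
  have : Finite L := hL
  have : Infinite K := Set.infinite_coe_iff.mpr hinf
  obtain ⟨φ, hφ⟩ := Finite.exists_infinite_fiber (fun k : K => fun a : A =>
    (⟨(k : S) * a * (k : S)⁻¹ * (a : S)⁻¹, hKL k k.2 a (hAK a.2)⟩ : L))
  have hinf2 : Infinite ((fun k : K => fun a : A =>
    (⟨(k : S) * a * (k : S)⁻¹ * (a : S)⁻¹, hKL k k.2 a (hAK a.2)⟩ : L)) ⁻¹' {φ}) := hφ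
  obtain ⟨⟨k₀, hk₀⟩⟩ := (inferInstance : Nonempty ((fun k : K => fun a : A =>
    (⟨(k : S) * a * (k : S)⁻¹ * (a : S)⁻¹, hKL k k.2 a (hAK a.2)⟩ : L)) ⁻¹' {φ}))
  have hcent : ∀ k : K, (fun a : A =>
      (⟨(k : S) * a * (k : S)⁻¹ * (a : S)⁻¹, hKL k k.2 a (hAK a.2)⟩ : L)) = φ →
      ∀ a ∈ A, ((k₀ : S)⁻¹ * (k : S)) * a = a * ((k₀ : S)⁻¹ * (k : S)) := by
    intro k hk a ha
    have h1 : (fun a : A =>
      (⟨(k : S) * a * (k : S)⁻¹ * (a : S)⁻¹, hKL k k.2 a (hAK a.2)⟩ : L)) = (fun a : A =>
      (⟨(k₀ : S) * a * (k₀ : S)⁻¹ * (a : S)⁻¹, hKL k₀ k₀.2 a (hAK a.2)⟩ : L)) := by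
      rw [hk]
      exact hk₀.symm
    have h2 := congrArg Subtype.val (congrFun h1 ⟨a, ha⟩)
    simp only at h2
    have h3 : (k : S) * a * (k : S)⁻¹ = (k₀ : S) * a * (k₀ : S)⁻¹ := mul_right_cancel h2
    have h4 : ((k₀ : S)⁻¹ * (k : S)) * a = (k₀ : S)⁻¹ * ((k : S) * a * (k : S)⁻¹) * k := by group
    rw [h4, h3]
    group
  -- one of these elements is not in `A`
  have hex : ∃ k : K, (fun a : A =>
      (⟨(k : S) * a * (k : S)⁻¹ * (a : S)⁻¹, hKL k k.2 a (hAK a.2)⟩ : L)) = φ ∧
      ((k₀ : S)⁻¹ * (k : S)) ∉ A := by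
    by_contra hcon
    push Not at hcon
    have hmap : Function.Injective (fun k : ((fun k : K => fun a : A =>
      (⟨(k : S) * a * (k : S)⁻¹ * (a : S)⁻¹, hKL k k.2 a (hAK a.2)⟩ : L)) ⁻¹' {φ}) =>
      (⟨((k₀ : S)⁻¹ * (k.1 : S)), hcon k.1 k.2⟩ : A)) := by
      intro k k' h
      have h1 := congrArg Subtype.val h
      simp only at h1
      exact Subtype.ext (Subtype.ext (mul_left_cancel h1))
    exact hinf2.not_finite (Finite.of_injective _ hmap)
  obtain ⟨k, hk, hkA⟩ := hex
  set x : S := ((k₀ : S)⁻¹ * (k : S)) with hx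
  have hxK : x ∈ K := K.mul_mem (K.inv_mem k₀.2) k.2
  have hxc := hcent k hk
  set A' := Subgroup.closure ((A : Set S) ∪ {x}) with hA'
  have hA'mem : A' ∈ {A : Subgroup S | A ≤ K ∧ ∀ x ∈ A, ∀ y ∈ A, x * y = y * x} := by
    refine ⟨?_, closure_comm _ ?_⟩
    · rw [hA', Subgroup.closure_le]
      intro y hy
      rcases hy with hy | hy
      · exact hAK hy
      · rw [Set.mem_singleton_iff] at hy
        rw [hy]
        exact hxK
    · intro y hy z hz
      rcases hy with hy | hy
      · rcases hz with hz | hz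
        · exact hA.prop.2 y hy z hz
        · rw [Set.mem_singleton_iff] at hz
          rw [hz]
          exact (hxc y hy).symm
      · rw [Set.mem_singleton_iff] at hy
        rcases hz with hz | hz
        · rw [hy]
          exact hxc z hz
        · rw [Set.mem_singleton_iff] at hz
          rw [hy, hz]
  have hle : A ≤ A' := fun y hy => Subgroup.subset_closure (Or.inl hy)
  have := hA.le_of_ge hA'mem hle
  exact hkA (this (Subgroup.subset_closure (Or.inr rfl)))

/-- a solvable group whose commutative subgroups are finite is finite -/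
theorem finite_of_solvable {S : Type*} [Group S] (hs : Group.IsSolvable S)
    (hab : ∀ A : Subgroup S, (∀ x ∈ A, ∀ y ∈ A, x * y = y * x) → (A : Set S).Finite) :
    Finite S := by
  obtain ⟨n, hn⟩ := hs.solvable
  have key : ∀ k, k ≤ n → ((derivedSeries S (n - k) : Subgroup S) : Set S).Finite := by
    intro k
    induction k with
    | zero =>
      intro _
      rw [Nat.sub_zero, hn]
      simp
    | succ k ih =>
      intro hk
      have h1 := ih (by omega)
      have h2 : n - k = (n - (k + 1)) + 1 := by omega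
      rw [h2, derivedSeries_succ] at h1
      refine finite_of_commutator_finite _ _ h1 ?_ (fun A _ hA => hab A hA)
      intro x hx y hy
      have := Subgroup.commutator_mem_commutator hx hy
      rwa [commutatorElement_def] at this
  have h := key n le_rfl
  rw [Nat.sub_self, derivedSeries_zero] at h
  exact Set.finite_univ_iff.mp (by simpa using h)

/-- 9.1 -/
theorem torsion_solvable_finite {G : Type*} [Group G]
    (hab : ∀ A : Subgroup G, (∀ x ∈ A, ∀ y ∈ A, x * y = y * x) →
      (∀ x ∈ A, ∃ n : ℕ, 0 < n ∧ x ^ n = 1) → (A : Set G).Finite)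
    (H : Subgroup G) (hs : Group.IsSolvable H) (ht : ∀ x ∈ H, ∃ n : ℕ, 0 < n ∧ x ^ n = 1) :
    (H : Set G).Finite := by
  have : Finite H := by
    refine finite_of_solvable hs (fun A hA => ?_)
    have h1 := hab (A.map H.subtype) (by
      rintro x ⟨x', hx', rfl⟩ y ⟨y', hy', rfl⟩
      have := hA x' hx' y' hy'
      rw [← map_mul, this, map_mul]) (by
      rintro x ⟨x', hx', rfl⟩
      exact ht _ x'.2)
    rw [Subgroup.coe_map] at h1
    exact Set.Finite.of_finite_image h1 (Subtype.val_injective.injOn)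
  exact Set.toFinite _

end MSGF
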