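import Pool.Agent.Lib.MP_acafa7_al.F.IfaceG
import Pool.Agent.Lib.MP_acafa7_al.F.H85.Solv

/-! GRN and SOLV.  (MP_acafa7_al, helper85) -/

namespace MSG.F85

open Classical

theorem grn_st : GrNStatement := by
  intro C₁ n U hn hmono hgr h1
  induction n with
  | zero => omega
  | succ n ih =>
    rcases Nat.eq_zero_or_pos n with h0 | h0
    · subst h0
      have h2 := hgr 0 (by omega)
      have h3 : C₁ * (U (0 + 1) - U 0) ^ 2 ≤ C₁ * (U (0 + 1)) ^ 2 :=
        Nat.mul_le_mul_left _ (Nat.pow_le_pow_left (Nat.sub_le _ _) 2)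
      have h4 : U (0 + 1) * 3 ≤ U (0 + 1) * (C₁ * U (0 + 1)) := by
        calc U (0 + 1) * 3 = 3 * U (0 + 1) := by ring
          _ ≤ C₁ * (U (0 + 1)) ^ 2 := h2.trans h3
          _ = U (0 + 1) * (C₁ * U (0 + 1)) := by ring
      have h5 := Nat.le_of_mul_le_mul_left h4 (Nat.lt_of_lt_of_le Nat.zero_lt_one h1)
      nlinarith
    · have hi := ih h0 (fun m hm => hmono m (by omega)) (fun m hm => hgr m (by omega))
      have h2 := hmono n (by omega)
      have h3 := hgr n (by omega)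
      obtain ⟨d, hd⟩ := Nat.exists_eq_add_of_le h2
      rw [hd] at h3 ⊢
      rw [Nat.add_sub_cancel_left] at h3
      -- integers
      have hi' : (3 * (n : ℤ) ^ 2) ≤ 4 * C₁ * U n := by exact_mod_cast hi
      have h3' : 3 * ((U n : ℤ) + d) ≤ C₁ * (d : ℤ) ^ 2 := by exact_mod_cast h3
      have hn' : (1 : ℤ) ≤ n := by exact_mod_cast h0
      have hd0 : (0 : ℤ) ≤ d := Int.natCast_nonneg _
      have hc0 : (0 : ℤ) ≤ C₁ := Int.natCast_nonneg _
      have hu0 : (0 : ℤ) ≤ U n := Int.natCast_nonneg _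
      by_contra hcon
      have hcon' : 4 * (C₁ : ℤ) * ((U n : ℤ) + d) < 3 * ((n : ℤ) + 1) ^ 2 := by
        push Not at hcon
        exact_mod_cast hcon
      -- x = 4 C d, y = 4 C (U n + d)
      set x : ℤ := 4 * C₁ * d with hx
      have hx0 : 0 ≤ x := by positivity
      have e1 : 4 * (C₁ : ℤ) * ((U n : ℤ) + d) = 4 * C₁ * U n + x := by
        rw [hx]
        ring
      have e2 : 12 * (4 * (C₁ : ℤ) * U n + x) ≤ x ^ 2 := by
        have : 16 * (C₁ : ℤ) * (3 * ((U n : ℤ) + d)) ≤ 16 * C₁ * (C₁ * (d : ℤ) ^ 2) :=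
          mul_le_mul_of_nonneg_left h3' (by positivity)
        calc 12 * (4 * (C₁ : ℤ) * U n + x) = 16 * C₁ * (3 * ((U n : ℤ) + d)) := by rw [hx]; ring
          _ ≤ 16 * C₁ * (C₁ * (d : ℤ) ^ 2) := this
          _ = x ^ 2 := by rw [hx]; ring
      rw [e1] at hcon'
      -- x < 6 n + 3 and 36 n ^ 2 + 12 x ≤ x ^ 2
      have e3 : x < 6 * n + 3 := by nlinarith
      have e4 : 36 * (n : ℤ) ^ 2 + 12 * x ≤ x ^ 2 := by nlinarith
      rcases le_or_gt x 12 with h12 | h12
      · nlinarith [mul_nonneg hx0 (sub_nonneg.mpr h12)]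
      · nlinarith [mul_pos (sub_pos.mpr h12) (sub_pos.mpr e3)]

theorem solv_st : SolvStatement := by
  intro Γ _ hab H hs ht
  refine MSGF.torsion_solvable_finite (fun A hA h => hab A hA (fun a ha => ?_)) H hs
    (fun x hx => ?_)
  · rw [isOfFinOrder_iff_pow_eq_one]
    exact h a ha
  · have := ht x hx
    rwa [isOfFinOrder_iff_pow_eq_one] at this

end MSG.F85
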